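import Mathlib

/-!
# The visual hull of a union of `n` disjoint convex sets in `E_n`

For every `n ≥ 3` we give `n` nonempty, pairwise disjoint convex sets in `E_n` whose union has a
visual hull that is not a union of `n` convex sets.
-/

open Set

namespace Pool.Agent.Results.MP_d086ed_co.NotUnionOfN

/-- Two subsets of Euclidean `n`-space are `P`-equivalent if their images under the orthogonal
projection onto every one-dimensional linear subspace (the line spanned by a nonzero vector)
agree. -/
def PEquivalent {n : ℕ} (A B : Set (EuclideanSpace ℝ (Fin n))) : Prop :=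
  ∀ v : EuclideanSpace ℝ (Fin n), v ≠ 0 →
    (fun x => (Submodule.span ℝ {v}).starProjection x) '' A =
      (fun x => (Submodule.span ℝ {v}).starProjection x) '' B

/-- The visual hull of `S`: the union of all sets that are `P`-equivalent to `S`. -/
def visualHull {n : ℕ} (S : Set (EuclideanSpace ℝ (Fin n))) : Set (EuclideanSpace ℝ (Fin n)) :=
  ⋃₀ {B | PEquivalent B S}

variable {n : ℕ}

/-- If `x` is in the visual hull then every hyperplane through `x` meets `S`. -/
lemma exists_of_mem_visualHull {S : Set (EuclideanSpace ℝ (Fin n))}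
    {x : EuclideanSpace ℝ (Fin n)} (hx : x ∈ visualHull S)
    (v : EuclideanSpace ℝ (Fin n)) (hv : v ≠ 0) :
    ∃ s ∈ S, inner ℝ v s = inner ℝ v x := by
  obtain ⟨B, hB, hxB⟩ := hx
  have h := hB v hv
  have hm : (fun x => (Submodule.span ℝ {v}).starProjection x) x ∈
      (fun x => (Submodule.span ℝ {v}).starProjection x) '' B := ⟨x, hxB, rfl⟩
  rw [h] at hm
  obtain ⟨s, hs, hsx⟩ := hm
  refine ⟨s, hs, ?_⟩
  have hsx' : (Submodule.span ℝ {v}).starProjection s =
      (Submodule.span ℝ {v}).starProjection x := hsx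
  rw [Submodule.starProjection_singleton, Submodule.starProjection_singleton] at hsx'
  have h2 := smul_left_injective ℝ hv hsx'
  have hn : ((‖v‖ ^ 2 : ℝ)) ≠ 0 := by
    have := norm_pos_iff.2 hv
    positivity
  have h3 : inner ℝ v s / ((‖v‖ ^ 2 : ℝ)) = inner ℝ v x / ((‖v‖ ^ 2 : ℝ)) := by
    simpa using h2
  field_simp at h3
  exact h3

/-- If every hyperplane through `x` meets `S` then `x` is in the visual hull. -/
lemma mem_visualHull {S : Set (EuclideanSpace ℝ (Fin n))}
    {x : EuclideanSpace ℝ (Fin n)}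
    (h : ∀ v : EuclideanSpace ℝ (Fin n), v ≠ 0 → ∃ s ∈ S, inner ℝ v s = inner ℝ v x) :
    x ∈ visualHull S := by
  refine ⟨insert x S, ?_, mem_insert _ _⟩
  intro v hv
  rw [image_insert_eq]
  apply insert_eq_of_mem
  obtain ⟨s, hs, hsx⟩ := h v hv
  refine ⟨s, hs, ?_⟩
  show (Submodule.span ℝ {v}).starProjection s = (Submodule.span ℝ {v}).starProjection x
  rw [Submodule.starProjection_singleton, Submodule.starProjection_singleton, hsx]

lemma subset_visualHull (S : Set (EuclideanSpace ℝ (Fin n))) : S ⊆ visualHull S :=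
  fun x hx => mem_visualHull fun _ _ => ⟨x, hx, rfl⟩

/-- Separation: a convex subset of the visual hull cannot contain points on both sides of a
hyperplane missing `S`. -/
lemma sep {S K : Set (EuclideanSpace ℝ (Fin n))} (hK : Convex ℝ K) (hKS : K ⊆ visualHull S)
    {x y : EuclideanSpace ℝ (Fin n)} (hx : x ∈ K) (hy : y ∈ K)
    (v : EuclideanSpace ℝ (Fin n)) (hv : v ≠ 0) (κ : ℝ) (h1 : inner ℝ v x ≤ κ)
    (h2 : κ ≤ inner ℝ v y) (h3 : ∀ s ∈ S, inner ℝ v s ≠ κ) : False := by
  have hcont : Convex ℝ K := hK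
  have : κ ∈ (fun z => inner ℝ v z) '' K := by
    have hc : Convex ℝ ((fun z => inner ℝ v z) '' K) :=
      hK.is_linear_image (f := fun z => inner ℝ v z)
        ⟨fun a b => inner_add_right v a b, fun c a => by simp [inner_smul_right]⟩
    exact hc.ordConnected.out ⟨x, hx, rfl⟩ ⟨y, hy, rfl⟩ ⟨h1, h2⟩
  obtain ⟨z, hz, hzκ⟩ := this
  obtain ⟨s, hs, hsz⟩ := exists_of_mem_visualHull (hKS hz) v hv
  exact h3 s hs (hsz.trans hzκ)

/-- The pieces of the example. -/
def piece (m : ℕ) (i : Fin (m + 3)) : Set (EuclideanSpace ℝ (Fin (m + 3))) :=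
  if i.val = 0 then {x | x 0 = - x 1 ∧ 1 ≤ x 1}
  else if i.val = 1 then {x | x 0 = x 1 ∧ 1 ≤ x 1}
  else if i.val = 2 then {x | (∀ j, j ≠ 0 → x j = 0) ∧ |x 0| ≤ 1}
  else {EuclideanSpace.single 1 (-((i.val : ℝ) - 2))}

/-- The points of the example. -/
noncomputable def pt (m : ℕ) : Option (Fin (m + 3)) → EuclideanSpace ℝ (Fin (m + 3))
  | none => EuclideanSpace.single 1 1
  | some i =>
    if i.val = 0 then EuclideanSpace.single 1 1 - EuclideanSpace.single 0 1
    else if i.val = 1 then EuclideanSpace.single 1 1 + EuclideanSpace.single 0 1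
    else EuclideanSpace.single 1 (-((i.val : ℝ) - 2))

lemma ne01 (m : ℕ) : (0 : Fin (m + 3)) ≠ 1 := by
  intro h
  have := congrArg Fin.val h
  simp at this

lemma mem_piece_zero {m : ℕ} {i : Fin (m + 3)} (hi : i.val = 0)
    (x : EuclideanSpace ℝ (Fin (m + 3))) : x ∈ piece m i ↔ x 0 = - x 1 ∧ 1 ≤ x 1 := by
  simp [piece, hi]

lemma mem_piece_one {m : ℕ} {i : Fin (m + 3)} (hi : i.val = 1)
    (x : EuclideanSpace ℝ (Fin (m + 3))) : x ∈ piece m i ↔ x 0 = x 1 ∧ 1 ≤ x 1 := by
  simp [piece, hi]

lemma mem_piece_two {m : ℕ} {i : Fin (m + 3)} (hi : i.val = 2)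
    (x : EuclideanSpace ℝ (Fin (m + 3))) :
    x ∈ piece m i ↔ (∀ j, j ≠ 0 → x j = 0) ∧ |x 0| ≤ 1 := by
  simp [piece, hi]

lemma mem_piece_ge {m : ℕ} {i : Fin (m + 3)} (hi : 3 ≤ i.val)
    (x : EuclideanSpace ℝ (Fin (m + 3))) :
    x ∈ piece m i ↔ x = EuclideanSpace.single 1 (-((i.val : ℝ) - 2)) := by
  have h0 : i.val ≠ 0 := by omega
  have h1 : i.val ≠ 1 := by omega
  have h2 : i.val ≠ 2 := by omega
  simp only [piece, h0, h1, h2, if_false, mem_singleton_iff]

lemma pt_mem_piece (m : ℕ) (i : Fin (m + 3)) : pt m (some i) ∈ piece m i := by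
  have h01 := ne01 m
  rcases Nat.lt_or_ge i.val 3 with h | h
  · interval_cases hi : i.val
    · rw [mem_piece_zero hi]
      simp [pt, hi, h01, h01.symm]
    · rw [mem_piece_one hi]
      simp [pt, hi, h01, h01.symm]
    · rw [mem_piece_two hi]
      simp [pt, hi]
  · rw [mem_piece_ge h]
    have h0 : i.val ≠ 0 := by omega
    have h1 : i.val ≠ 1 := by omega
    simp [pt, h0, h1]

lemma piece_convex (m : ℕ) (i : Fin (m + 3)) : Convex ℝ (piece m i) := by
  intro x hx y hy a b ha hb hab
  rcases Nat.lt_or_ge i.val 3 with h | h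
  · interval_cases hi : i.val
    · rw [mem_piece_zero hi] at *
      obtain ⟨hx1, hx2⟩ := hx
      obtain ⟨hy1, hy2⟩ := hy
      simp only [PiLp.add_apply, PiLp.smul_apply, smul_eq_mul]
      refine ⟨by rw [hx1, hy1]; ring, by nlinarith⟩
    · rw [mem_piece_one hi] at *
      obtain ⟨hx1, hx2⟩ := hx
      obtain ⟨hy1, hy2⟩ := hy
      simp only [PiLp.add_apply, PiLp.smul_apply, smul_eq_mul]
      refine ⟨by rw [hx1, hy1], by nlinarith⟩
    · rw [mem_piece_two hi] at *
      obtain ⟨hx1, hx2⟩ := hx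
      obtain ⟨hy1, hy2⟩ := hy
      simp only [PiLp.add_apply, PiLp.smul_apply, smul_eq_mul]
      refine ⟨fun j hj => by rw [hx1 j hj, hy1 j hj]; ring, ?_⟩
      rw [abs_le] at *
      constructor <;> nlinarith
  · rw [mem_piece_ge h] at *
    rw [hx, hy, ← add_smul, hab, one_smul]

/-- The last-but-one coordinate (`x 1`) of points of a piece. -/
lemma piece_height {m : ℕ} {i : Fin (m + 3)} {x : EuclideanSpace ℝ (Fin (m + 3))}
    (hx : x ∈ piece m i) :
    (i.val < 2 ∧ 1 ≤ x 1) ∨ (2 ≤ i.val ∧ x 1 = -((i.val : ℝ) - 2)) := by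
  have h01 := ne01 m
  rcases Nat.lt_or_ge i.val 3 with h | h
  · interval_cases hi : i.val
    · rw [mem_piece_zero hi] at hx
      exact Or.inl ⟨by norm_num, hx.2⟩
    · rw [mem_piece_one hi] at hx
      exact Or.inl ⟨by norm_num, hx.2⟩
    · rw [mem_piece_two hi] at hx
      refine Or.inr ⟨le_refl _, ?_⟩
      rw [hx.1 1 h01.symm]
      norm_num
  · rw [mem_piece_ge h] at hx
    refine Or.inr ⟨by omega, ?_⟩
    rw [hx]
    simp

lemma piece_disjoint (m : ℕ) (i j : Fin (m + 3)) (hij : i ≠ j) :
    Disjoint (piece m i) (piece m j) := by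
  wlog hlt : i.val < j.val generalizing i j
  · have hne : i.val ≠ j.val := fun h => hij (Fin.ext h)
    exact (this j i hij.symm (by omega)).symm
  rw [Set.disjoint_left]
  intro x hx hy
  rcases piece_height hx with ⟨h1, h2⟩ | ⟨h1, h2⟩ <;> rcases piece_height hy with ⟨h3, h4⟩ | ⟨h3, h4⟩
  · have hi : i.val = 0 := by omega
    have hj : j.val = 1 := by omega
    rw [mem_piece_zero hi] at hx
    rw [mem_piece_one hj] at hy
    linarith [hx.1, hx.2, hy.1]
  · have : (2 : ℝ) ≤ j.val := by exact_mod_cast h3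
    linarith
  · omega
  · have : (i.val : ℝ) < j.val := by exact_mod_cast hlt
    linarith

/-- The point `q = single 1 1` is in the visual hull. -/
lemma q_mem (m : ℕ) : pt m none ∈ visualHull (⋃ i, piece m i) := by
  have h01 := ne01 m
  apply mem_visualHull
  intro v hv
  have hinner : ∀ x : EuclideanSpace ℝ (Fin (m + 3)), inner ℝ v x = ∑ j, v j * x j := by
    intro x
    simp [PiLp.inner_apply, mul_comm]
  have hq : inner ℝ v (pt m none) = v 1 := by
    simp [pt, EuclideanSpace.inner_single_right]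
  rw [hq]
  let i0 : Fin (m + 3) := ⟨0, by omega⟩
  let i1 : Fin (m + 3) := ⟨1, by omega⟩
  let i2 : Fin (m + 3) := ⟨2, by omega⟩
  by_cases hoth : ∃ j : Fin (m + 3), j ≠ 0 ∧ j ≠ 1 ∧ v j ≠ 0
  · obtain ⟨j, hj0, hj1, hvj⟩ := hoth
    refine ⟨EuclideanSpace.single 1 1 - EuclideanSpace.single 0 1 +
      EuclideanSpace.single j (v 0 / v j), mem_iUnion.2 ⟨i0, ?_⟩, ?_⟩
    · rw [mem_piece_zero (show i0.val = 0 from rfl)]
      simp [h01, h01.symm, hj0.symm, hj1.symm]
    · simp [inner_add_right, inner_sub_right, EuclideanSpace.inner_single_right]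
      field_simp
      ring
  · push Not at hoth
    by_cases hle : |v 1| ≤ |v 0|
    · by_cases h0 : v 0 = 0
      · exfalso
        apply hv
        have h1 : v 1 = 0 := by
          rw [h0] at hle
          simpa using hle
        ext j
        by_cases hj0 : j = 0
        · rw [hj0, h0]; rfl
        · by_cases hj1 : j = 1
          · rw [hj1, h1]; rfl
          · rw [hoth j hj0 hj1]; rfl
      · refine ⟨EuclideanSpace.single 0 (v 1 / v 0), mem_iUnion.2 ⟨i2, ?_⟩, ?_⟩
        · rw [mem_piece_two (show i2.val = 2 from rfl)]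
          refine ⟨fun j hj => by simp [hj], ?_⟩
          simp only [PiLp.single_apply, if_true]
          rw [abs_div, div_le_one (abs_pos.2 h0)]
          exact hle
        · simp [EuclideanSpace.inner_single_right]
          field_simp
    · push Not at hle
      -- use the pieces `A`, `B`
      have hsq : |v 0| * |v 0| = v 0 * v 0 := abs_mul_abs_self _
      have hmul : |v 0| * |v 0| ≤ |v 0| * |v 1| :=
        mul_le_mul_of_nonneg_left hle.le (abs_nonneg _)
      have habs : |v 0| * |v 1| = |v 0 * v 1| := (abs_mul _ _).symm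
      by_cases hs : 0 ≤ v 0 * v 1
      · -- `t = v 1 / (v 1 - v 0) ≥ 1`
        have hne : v 1 - v 0 ≠ 0 := by
          intro h
          have : v 1 = v 0 := by linarith
          rw [this] at hle
          exact lt_irrefl _ hle
        have hpos : 0 < (v 1 - v 0) ^ 2 := by positivity
        rw [abs_of_nonneg hs] at habs
        refine ⟨EuclideanSpace.single 1 (v 1 / (v 1 - v 0)) -
          EuclideanSpace.single 0 (v 1 / (v 1 - v 0)), mem_iUnion.2 ⟨i0, ?_⟩, ?_⟩
        · rw [mem_piece_zero (show i0.val = 0 from rfl)]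
          simp only [PiLp.sub_apply, PiLp.single_apply, if_true, h01, h01.symm, if_false, zero_sub,
            sub_zero, true_and]
          have : v 1 / (v 1 - v 0) = (v 1 * (v 1 - v 0)) / (v 1 - v 0) ^ 2 := by
            field_simp
          rw [this, le_div_iff₀ hpos]
          nlinarith
        · simp [inner_sub_right, EuclideanSpace.inner_single_right]
          field_simp
      · push Not at hs
        have hne : v 1 + v 0 ≠ 0 := by
          intro h
          have : v 1 = - v 0 := by linarith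
          rw [this, abs_neg] at hle
          exact lt_irrefl _ hle
        have hpos : 0 < (v 1 + v 0) ^ 2 := by positivity
        rw [abs_of_neg hs] at habs
        refine ⟨EuclideanSpace.single 1 (v 1 / (v 1 + v 0)) +
          EuclideanSpace.single 0 (v 1 / (v 1 + v 0)), mem_iUnion.2 ⟨i1, ?_⟩, ?_⟩
        · rw [mem_piece_one (show i1.val = 1 from rfl)]
          simp only [PiLp.add_apply, PiLp.single_apply, if_true, h01, h01.symm, if_false, zero_add,
            add_zero, true_and]
          have : v 1 / (v 1 + v 0) = (v 1 * (v 1 + v 0)) / (v 1 + v 0) ^ 2 := by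
            field_simp
          rw [this, le_div_iff₀ hpos]
          nlinarith
        · simp [inner_add_right, EuclideanSpace.inner_single_right]
          field_simp

lemma pt_mem (m : ℕ) (o : Option (Fin (m + 3))) : pt m o ∈ visualHull (⋃ i, piece m i) := by
  cases o with
  | none => exact q_mem m
  | some i => exact subset_visualHull _ (mem_iUnion.2 ⟨i, pt_mem_piece m i⟩)

/-- Heights of the points of the example. -/
lemma pt_height (m : ℕ) (i : Fin (m + 3)) (hi : 2 ≤ i.val) :
    pt m (some i) 1 = -((i.val : ℝ) - 2) := by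
  have h0 : i.val ≠ 0 := by omega
  have h1 : i.val ≠ 1 := by omega
  simp [pt, h0, h1]

/-- No horizontal hyperplane at a height in `(-k - 1, -k)`, `k ≥ -1` an integer, meets `S`. -/
lemma height_ne {m : ℕ} (k : ℤ) (hk : -1 ≤ k) {s : EuclideanSpace ℝ (Fin (m + 3))}
    (hs : s ∈ ⋃ i, piece m i) : s 1 ≠ -(k : ℝ) - 1 / 2 := by
  intro h
  obtain ⟨i, hi⟩ := mem_iUnion.1 hs
  have hk' : (-1 : ℝ) ≤ k := by exact_mod_cast hk
  rcases piece_height hi with ⟨_, h2⟩ | ⟨_, h2⟩
  · linarith
  · rw [h2] at h
    have h3 : (2 * ((i.val : ℤ) - 2) : ℝ) = 2 * (k : ℝ) + 1 := by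
      push_cast
      linarith
    have h4 : (2 * ((i.val : ℤ) - 2) : ℤ) = 2 * k + 1 := by exact_mod_cast h3
    omega

/-- Two different points of the example are never in a common convex subset of the hull. -/
lemma not_common (m : ℕ) {K : Set (EuclideanSpace ℝ (Fin (m + 3)))} (hK : Convex ℝ K)
    (hKS : K ⊆ visualHull (⋃ i, piece m i)) (o o' : Option (Fin (m + 3))) (hne : o ≠ o')
    (ho : pt m o ∈ K) (ho' : pt m o' ∈ K) : False := by
  have h01 := ne01 m
  have he1 : ∀ x : EuclideanSpace ℝ (Fin (m + 3)),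
      inner ℝ (EuclideanSpace.single (1 : Fin (m + 3)) (1 : ℝ)) x = x 1 := by
    intro x
    simp [EuclideanSpace.inner_single_left]
  have hv1 : (EuclideanSpace.single (1 : Fin (m + 3)) (1 : ℝ)) ≠ 0 := by
    intro h
    have := congrArg (fun x : EuclideanSpace ℝ (Fin (m + 3)) => x 1) h
    simp at this
  -- separation by heights
  have hsepH : ∀ (k : ℤ), -1 ≤ k → ∀ x y : EuclideanSpace ℝ (Fin (m + 3)), x ∈ K → y ∈ K →
      x 1 ≤ -(k : ℝ) - 1 / 2 → -(k : ℝ) - 1 / 2 ≤ y 1 → False := by
    intro k hk x y hx hy h1 h2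
    refine sep hK hKS hx hy _ hv1 (-(k : ℝ) - 1 / 2) ?_ ?_ ?_
    · rw [he1]; exact h1
    · rw [he1]; exact h2
    · intro s hs
      rw [he1]
      exact height_ne k hk hs
  have hlow : ∀ i j : Fin (m + 3), 2 ≤ i.val → i.val < j.val → pt m (some i) ∈ K →
      pt m (some j) ∈ K → False := by
    intro i j hi hij hiK hjK
    have h1 : (i.val : ℝ) + 1 ≤ j.val := by exact_mod_cast hij
    refine hsepH ((i.val : ℤ) - 2) (by omega) _ _ hjK hiK ?_ ?_
    · rw [pt_height m j (by omega)]
      push_cast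
      linarith
    · rw [pt_height m i hi]
      push_cast
      linarith
  have htl : ∀ x : EuclideanSpace ℝ (Fin (m + 3)), x 1 = 1 → x ∈ K → ∀ j : Fin (m + 3),
      2 ≤ j.val → pt m (some j) ∈ K → False := by
    intro x hx hxK j hj hjK
    have h1 : (2 : ℝ) ≤ j.val := by exact_mod_cast hj
    refine hsepH (-1) le_rfl _ _ hjK hxK ?_ ?_
    · rw [pt_height m j hj]
      push_cast
      linarith
    · rw [hx]
      push_cast
      norm_num
  -- tilted hyperplanes
  let i0 : Fin (m + 3) := ⟨0, by omega⟩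
  let i1 : Fin (m + 3) := ⟨1, by omega⟩
  have hA : ∀ x : EuclideanSpace ℝ (Fin (m + 3)), x ∈ K → x 1 - x 0 ≤ 3 / 2 →
      pt m (some i0) ∈ K → False := by
    intro x hx hle h0
    have hin : ∀ z : EuclideanSpace ℝ (Fin (m + 3)),
        inner ℝ (EuclideanSpace.single (1 : Fin (m + 3)) (1 : ℝ) -
          EuclideanSpace.single (0 : Fin (m + 3)) (1 : ℝ)) z = z 1 - z 0 := by
      intro z
      simp [inner_sub_left, EuclideanSpace.inner_single_left]
    refine sep hK hKS hx h0 (EuclideanSpace.single (1 : Fin (m + 3)) (1 : ℝ) -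
          EuclideanSpace.single (0 : Fin (m + 3)) (1 : ℝ)) ?_ (3 / 2) ?_ ?_ ?_
    · intro h
      have := congrArg (fun x : EuclideanSpace ℝ (Fin (m + 3)) => x 1) h
      simp [h01.symm] at this
    · rw [hin]; exact hle
    · rw [hin]
      simp [pt, i0, h01, h01.symm]
      norm_num
    · intro s hs hs'
      rw [hin] at hs'
      obtain ⟨i, hi⟩ := mem_iUnion.1 hs
      rcases Nat.lt_or_ge i.val 3 with h | h
      · interval_cases hi' : i.val
        · rw [mem_piece_zero hi'] at hi
          linarith [hi.1, hi.2]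
        · rw [mem_piece_one hi'] at hi
          linarith [hi.1, hi.2]
        · rw [mem_piece_two hi'] at hi
          have := hi.1 1 h01.symm
          have := abs_le.1 hi.2
          linarith [this.1, this.2]
      · rw [mem_piece_ge h] at hi
        rw [hi] at hs'
        simp [h01] at hs'
        have h1 : (3 : ℝ) ≤ i.val := by exact_mod_cast h
        linarith
  have hB : ∀ x : EuclideanSpace ℝ (Fin (m + 3)), x ∈ K → x 1 + x 0 ≤ 3 / 2 →
      pt m (some i1) ∈ K → False := by
    intro x hx hle h0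
    have hin : ∀ z : EuclideanSpace ℝ (Fin (m + 3)),
        inner ℝ (EuclideanSpace.single (1 : Fin (m + 3)) (1 : ℝ) +
          EuclideanSpace.single (0 : Fin (m + 3)) (1 : ℝ)) z = z 1 + z 0 := by
      intro z
      simp [inner_add_left, EuclideanSpace.inner_single_left]
    refine sep hK hKS hx h0 (EuclideanSpace.single (1 : Fin (m + 3)) (1 : ℝ) +
          EuclideanSpace.single (0 : Fin (m + 3)) (1 : ℝ)) ?_ (3 / 2) ?_ ?_ ?_
    · intro h
      have := congrArg (fun x : EuclideanSpace ℝ (Fin (m + 3)) => x 1) h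
      simp [h01.symm] at this
    · rw [hin]; exact hle
    · rw [hin]
      simp [pt, i1, h01, h01.symm]
      norm_num
    · intro s hs hs'
      rw [hin] at hs'
      obtain ⟨i, hi⟩ := mem_iUnion.1 hs
      rcases Nat.lt_or_ge i.val 3 with h | h
      · interval_cases hi' : i.val
        · rw [mem_piece_zero hi'] at hi
          linarith [hi.1, hi.2]
        · rw [mem_piece_one hi'] at hi
          linarith [hi.1, hi.2]
        · rw [mem_piece_two hi'] at hi
          have := hi.1 1 h01.symm
          have := abs_le.1 hi.2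
          linarith [this.1, this.2]
      · rw [mem_piece_ge h] at hi
        rw [hi] at hs'
        simp [h01] at hs'
        have h1 : (3 : ℝ) ≤ i.val := by exact_mod_cast h
        linarith
  have hq1 : pt m none 1 = 1 := by simp [pt]
  have hq0 : pt m none 0 = 0 := by simp [pt, h01]
  have ha1 : pt m (some i0) 1 = 1 := by simp [pt, i0, h01.symm]
  have hb1 : pt m (some i1) 1 = 1 := by simp [pt, i1, h01.symm]
  have hb0 : pt m (some i1) 0 = 1 := by simp [pt, i1, h01]
  have hcases : ∀ i : Fin (m + 3), i = i0 ∨ i = i1 ∨ 2 ≤ i.val := by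
    intro i
    by_cases h0 : i.val = 0
    · exact Or.inl (Fin.ext h0)
    · by_cases h1 : i.val = 1
      · exact Or.inr (Or.inl (Fin.ext h1))
      · exact Or.inr (Or.inr (by omega))
  have hqa : pt m none ∈ K → pt m (some i0) ∈ K → False := fun hq ha =>
    hA _ hq (by rw [hq1, hq0]; norm_num) ha
  have hba : pt m (some i1) ∈ K → pt m (some i0) ∈ K → False := fun hb ha =>
    hA _ hb (by rw [hb1, hb0]; norm_num) ha
  have hqb : pt m none ∈ K → pt m (some i1) ∈ K → False := fun hq hb =>
    hB _ hq (by rw [hq1, hq0]; norm_num) hb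
  have hql : ∀ j : Fin (m + 3), 2 ≤ j.val → pt m none ∈ K → pt m (some j) ∈ K → False :=
    fun j hj hq hjK => htl _ hq1 hq j hj hjK
  have hal : ∀ j : Fin (m + 3), 2 ≤ j.val → pt m (some i0) ∈ K → pt m (some j) ∈ K → False :=
    fun j hj hq hjK => htl _ ha1 hq j hj hjK
  have hbl : ∀ j : Fin (m + 3), 2 ≤ j.val → pt m (some i1) ∈ K → pt m (some j) ∈ K → False :=
    fun j hj hq hjK => htl _ hb1 hq j hj hjK
  rcases o with _ | i <;> rcases o' with _ | j
  · exact hne rfl
  · rcases hcases j with rfl | rfl | hj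
    · exact hqa ho ho'
    · exact hqb ho ho'
    · exact hql j hj ho ho'
  · rcases hcases i with rfl | rfl | hi
    · exact hqa ho' ho
    · exact hqb ho' ho
    · exact hql i hi ho' ho
  · rcases hcases i with rfl | rfl | hi <;> rcases hcases j with rfl | rfl | hj
    · exact hne rfl
    · exact hba ho' ho
    · exact hal j hj ho ho'
    · exact hba ho ho'
    · exact hne rfl
    · exact hbl j hj ho ho'
    · exact hal i hi ho' ho
    · exact hbl i hi ho' ho
    · have hij : i.val ≠ j.val := fun h => hne (by rw [Fin.ext h])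
      rcases Nat.lt_or_ge i.val j.val with h | h
      · exact hlow i j hi h ho ho'
      · exact hlow j i hj (by omega) ho' ho

/-- **Main result.** For every `n ≥ 3` there are `n` nonempty, pairwise disjoint convex sets in
`E_n` whose union has a visual hull that is not a union of `n` convex sets. -/
theorem result : ∀ n : ℕ, 3 ≤ n →
    ∃ A : Fin n → Set (EuclideanSpace ℝ (Fin n)),
      (∀ i, (A i).Nonempty) ∧ (∀ i, Convex ℝ (A i)) ∧ (∀ i j, i ≠ j → Disjoint (A i) (A j)) ∧
      ¬ ∃ C : Fin n → Set (EuclideanSpace ℝ (Fin n)),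
        (∀ i, Convex ℝ (C i)) ∧ visualHull (⋃ i, A i) = ⋃ i, C i := by
  intro n hn
  obtain ⟨m, rfl⟩ : ∃ m, n = m + 3 := ⟨n - 3, by omega⟩
  refine ⟨piece m, fun i => ⟨_, pt_mem_piece m i⟩, piece_convex m, piece_disjoint m, ?_⟩
  rintro ⟨C, hC, hCu⟩
  have hmem : ∀ o : Option (Fin (m + 3)), ∃ i, pt m o ∈ C i := by
    intro o
    have := pt_mem m o
    rw [hCu] at this
    exact mem_iUnion.1 this
  choose f hf using hmem
  obtain ⟨o, o', hne, hoo⟩ := Fintype.exists_ne_map_eq_of_card_lt f (by simp)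
  refine not_common m (hC (f o)) ?_ o o' hne (hf o) (by rw [hoo]; exact hf o')
  rw [hCu]
  exact subset_iUnion _ _

end Pool.Agent.Results.MP_d086ed_co.NotUnionOfN
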